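import Pool.Agent.W170.Z3.Stm

/-!
# Project Z3: bound of the basis on the line
-/

open Polynomial Pool.Agent.H337R2 Filter Topology

namespace Pool.Agent.W395.Z3

open Pool.Agent.W170.Z3

noncomputable section

/-- the weight -/
def WW (n : ℕ) (y : ℝ) : ℝ :=
  NG n y * Real.exp (-(2 * Real.pi * |y|)) * (1 + y ^ 2) ^ 130

lemma NG_nonneg (n : ℕ) (y : ℝ) : 0 ≤ NG n y := by unfold NG; positivity

lemma WW_nonneg (n : ℕ) (y : ℝ) : 0 ≤ WW n y := by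
  unfold WW
  have := NG_nonneg n y
  positivity

/-- product of the full blocks -/
def FB (n b : ℕ) (y : ℝ) : ℝ :=
  ∏ i ∈ Finset.range 10, (‖aeval (zn n y) (QB n i)‖ ^ 2) ^ (sG b i * (n / 60))

lemma FB_nonneg (n b : ℕ) (y : ℝ) : 0 ≤ FB n b y := by unfold FB; positivity

lemma Lin_eval (n : ℕ) (y : ℝ) : aeval (zn n y) (Lin n) = (y : ℂ) * Complex.I := by
  unfold Lin zn zl
  simp only [map_add, aeval_X, aeval_C, eq_ratCast]
  push_cast
  ring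

lemma Lin_norm (n : ℕ) (y : ℝ) : ‖aeval (zn n y) (Lin n)‖ ^ 2 = y ^ 2 := by
  rw [Lin_eval, norm_mul, Complex.norm_I, mul_one, Complex.norm_real, Real.norm_eq_abs, sq_abs]

lemma QB_norm {n : ℕ} (hn : 1 ≤ n) (y : ℝ) (i : ℕ) :
    ‖aeval (zn n y) (QB n i)‖ = (n : ℝ) ^ 2 * |(hG i : ℝ) - (y / n) ^ 2| := by
  have hn' : (n : ℝ) ≠ 0 := by exact_mod_cast (by omega : n ≠ 0)
  have e : aeval (zn n y) (QB n i) = (((n : ℝ) ^ 2 * ((hG i : ℝ) - (y / n) ^ 2) : ℝ) : ℂ) := by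
    have e1 : QB n i = Lin n ^ 2 + C (hG i * (n : ℚ) ^ 2) := rfl
    rw [e1, map_add, map_pow, Lin_eval, aeval_C, mul_pow, Complex.I_sq]
    have e2 : (n : ℝ) ^ 2 * ((hG i : ℝ) - (y / n) ^ 2) = (hG i : ℝ) * (n : ℝ) ^ 2 - y ^ 2 := by
      field_simp
    rw [e2, eq_ratCast]
    push_cast
    ring
  rw [e, Complex.norm_real, Real.norm_eq_abs, abs_mul, abs_of_nonneg (by positivity)]

lemma sum_sG {b : ℕ} (hb : b ≤ 8) : ∑ i ∈ Finset.range 10, sG b i = ho b := by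
  interval_cases b <;> decide

lemma sG_mono {b : ℕ} (hb : b < 8) : ∀ i ∈ Finset.range 10, sG b i ≤ sG (b + 1) i := by
  interval_cases b <;> decide

lemma FB_le {n : ℕ} (h3 : StG3) (hn : 1 ≤ n) (b : ℕ) (hb : b ≤ 8) (y : ℝ) :
    FB n b y * 2 ^ (tG b * (n / 60)) ≤
      (n : ℝ) ^ (4 * (ho b * (n / 60))) * FXpG ((y / n) ^ 2) ^ (n / 60) := by
  obtain ⟨N, hN⟩ : ∃ N, N = n / 60 := ⟨_, rfl⟩
  rw [← hN]
  have hv : 0 ≤ (y / n) ^ 2 := by positivity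
  have h2 : FB n b y = (n : ℝ) ^ (4 * (ho b * N)) *
        (∏ i ∈ Finset.range 10, |((hG i : ℚ) : ℝ) - (y / n) ^ 2| ^ (2 * sG b i)) ^ N := by
    unfold FB
    rw [← hN]
    have : ∀ i ∈ Finset.range 10, (‖aeval (zn n y) (QB n i)‖ ^ 2) ^ (sG b i * N) =
        ((n : ℝ) ^ (4 * N)) ^ sG b i * (|((hG i : ℚ) : ℝ) - (y / n) ^ 2| ^ (2 * sG b i)) ^ N := by
      intro i _
      rw [QB_norm hn, mul_pow, mul_pow, ← pow_mul, ← pow_mul, ← pow_mul, ← pow_mul, ← pow_mul]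
      congr 2
      · ring
      · ring
    rw [Finset.prod_congr rfl this, Finset.prod_mul_distrib, Finset.prod_pow,
      Finset.prod_pow_eq_pow_sum, ← pow_mul, sum_sG hb]
    congr 2
    ring
  have h3' := h3 b hb ((y / n) ^ 2) hv
  have h4 := pow_le_pow_left₀ (by positivity) h3' N
  rw [mul_pow, ← pow_mul] at h4
  rw [h2]
  calc (n : ℝ) ^ (4 * (ho b * N)) *
        (∏ i ∈ Finset.range 10, |((hG i : ℚ) : ℝ) - (y / n) ^ 2| ^ (2 * sG b i)) ^ N *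
        2 ^ (tG b * N)
      = (n : ℝ) ^ (4 * (ho b * N)) * (2 ^ (tG b * N) *
        (∏ i ∈ Finset.range 10, |((hG i : ℚ) : ℝ) - (y / n) ^ 2| ^ (2 * sG b i)) ^ N) := by
        ring
    _ ≤ _ := mul_le_mul_of_nonneg_left h4 (by positivity)

/-- the estimate of `StG1` -/
def Hyp (C : ℝ) (K : ℕ) : Prop := ∀ n : ℕ, 60 ≤ n → ∀ y : ℝ,
  NG n y * Real.exp (-(2 * Real.pi * |y|)) * (1 + y ^ 2) ^ 130 * FXpG ((y / n) ^ 2) ^ (n / 60) ≤
    C * (n : ℝ) ^ K * Real.exp (n * PhiG)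

lemma corner {C : ℝ} {K : ℕ} (h3 : StG3) (hC : 0 < C) (h : Hyp C K) {n : ℕ} (hn : 60 ≤ n)
    {b : ℕ} (hb : b ≤ 8) (y : ℝ) :
    WW n y * FB n b y ≤ Real.exp (la C K n b) := by
  have h0 : (0 : ℝ) < n := by exact_mod_cast (by omega : 0 < n)
  have h1 := h n hn y
  have h2 := FB_le (n := n) h3 (by omega) b hb y
  obtain ⟨N, hN⟩ : ∃ N, N = n / 60 := ⟨_, rfl⟩
  rw [← hN] at h1 h2
  have e : Real.exp (la C K n b) * 2 ^ (tG b * N) =
      (C * (n : ℝ) ^ K * Real.exp (n * PhiG)) * (n : ℝ) ^ (4 * (ho b * N)) := by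
    unfold la
    rw [← hN, Real.exp_sub, Real.exp_add, Real.exp_add, Real.exp_add, Real.exp_log hC]
    have e1 : Real.exp (K * Real.log n) = (n : ℝ) ^ K := by
      rw [Real.exp_nat_mul, Real.exp_log h0]
    have e2 : Real.exp (4 * ho b * N * Real.log n) = (n : ℝ) ^ (4 * (ho b * N)) := by
      have : (4 * ho b * N * Real.log n : ℝ) = ((4 * (ho b * N) : ℕ) : ℝ) * Real.log n := by
        push_cast; ring
      rw [this, Real.exp_nat_mul, Real.exp_log h0]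
    have e3 : Real.exp (tG b * N * Real.log 2) = (2 : ℝ) ^ (tG b * N) := by
      have : (tG b * N * Real.log 2 : ℝ) = ((tG b * N : ℕ) : ℝ) * Real.log 2 := by
        push_cast; ring
      rw [this, Real.exp_nat_mul, Real.exp_log (by norm_num)]
    rw [e1, e2, e3]
    field_simp
  have hpos : (0 : ℝ) < 2 ^ (tG b * N) := by positivity
  refine le_of_mul_le_mul_right ?_ hpos
  rw [e]
  calc WW n y * FB n b y * 2 ^ (tG b * N) = WW n y * (FB n b y * 2 ^ (tG b * N)) := by ring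
    _ ≤ WW n y * ((n : ℝ) ^ (4 * (ho b * N)) * FXpG ((y / n) ^ 2) ^ N) :=
        mul_le_mul_of_nonneg_left h2 (WW_nonneg n y)
    _ = (WW n y * FXpG ((y / n) ^ 2) ^ N) * (n : ℝ) ^ (4 * (ho b * N)) := by ring
    _ ≤ _ := mul_le_mul_of_nonneg_right h1 (by positivity)

lemma interp {a q a0 b0 : ℝ} (ha : 0 ≤ a) (hq : 0 ≤ q) {S k : ℕ} (hS : 0 < S) (hk : k ≤ S)
    (h1 : a ≤ Real.exp a0) (h2 : a * q ^ S ≤ Real.exp b0) :
    a * q ^ k ≤ Real.exp ((1 - (k : ℝ) / S) * a0 + (k : ℝ) / S * b0) := by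
  have hS' : (S : ℝ) ≠ 0 := by exact_mod_cast hS.ne'
  apply le_of_pow_le_pow_left₀ hS.ne' (Real.exp_pos _).le
  have e1 : Real.exp ((1 - (k : ℝ) / S) * a0 + (k : ℝ) / S * b0) ^ S =
      Real.exp a0 ^ (S - k) * Real.exp b0 ^ k := by
    rw [← Real.exp_nat_mul, ← Real.exp_nat_mul, ← Real.exp_nat_mul, ← Real.exp_add]
    congr 1
    rw [Nat.cast_sub hk]
    field_simp
  have e2 : (a * q ^ k) ^ S = a ^ (S - k) * (a * q ^ S) ^ k := by
    rw [mul_pow, mul_pow, ← pow_mul, ← pow_mul, ← mul_assoc, ← pow_add, Nat.sub_add_cancel hk,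
      mul_comm k S]
  rw [e1, e2]
  have h3 : a ^ (S - k) ≤ Real.exp a0 ^ (S - k) := pow_le_pow_left₀ ha h1 _
  have h4 : (a * q ^ S) ^ k ≤ Real.exp b0 ^ k := pow_le_pow_left₀ (by positivity) h2 _
  exact mul_le_mul h3 h4 (by positivity) (by positivity)

lemma SB_norm (n b : ℕ) (y : ℝ) : ‖aeval (zn n y) (SB n b)‖ ^ 2 = FB n b y := by
  unfold SB FB
  rw [map_prod, norm_prod, ← Finset.prod_pow]
  apply Finset.prod_congr rfl
  intro i _
  rw [map_pow, norm_pow, ← pow_mul, ← pow_mul, mul_comm]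

lemma SB_succ {n b : ℕ} (hb : b < 8) : SB n (b + 1) = SB n b * TB n b ^ (n / 60) := by
  unfold SB TB
  rw [← Finset.prod_pow, ← Finset.prod_mul_distrib]
  apply Finset.prod_congr rfl
  intro i hi
  rw [← pow_mul, ← pow_add, ← add_mul, Nat.add_sub_cancel' (sG_mono hb i hi)]

lemma FB_succ {n b : ℕ} (hb : b < 8) (y : ℝ) :
    FB n (b + 1) y = FB n b y * (‖aeval (zn n y) (TB n b)‖ ^ 2) ^ (n / 60) := by
  rw [← SB_norm, ← SB_norm, SB_succ hb, map_mul, norm_mul, mul_pow, map_pow, norm_pow, ← pow_mul,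
    ← pow_mul, mul_comm (n / 60) 2]

lemma PA_norm (n b m j : ℕ) (y : ℝ) :
    ‖aeval (zn n y) (PA n b m j)‖ ^ 2 =
      FB n b y * (‖aeval (zn n y) (TB n b)‖ ^ 2) ^ m * (y ^ 2) ^ j := by
  unfold PA
  rw [map_mul, map_mul, norm_mul, norm_mul, mul_pow, mul_pow, SB_norm, map_pow, norm_pow, map_pow,
    norm_pow, ← Lin_norm n y, ← pow_mul, ← pow_mul, ← pow_mul, ← pow_mul, mul_comm m 2,
    mul_comm j 2]

lemma ypow {y : ℝ} {k : ℕ} (hk : k ≤ 129) : (1 + y ^ 2) * (y ^ 2) ^ k ≤ (1 + y ^ 2) ^ 130 := by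
  have h9 : (1 : ℝ) ≤ 1 + y ^ 2 := by nlinarith [sq_nonneg y]
  have h10 : (y ^ 2) ^ k ≤ (1 + y ^ 2) ^ k := pow_le_pow_left₀ (sq_nonneg y) (by linarith) k
  calc (1 + y ^ 2) * (y ^ 2) ^ k ≤ (1 + y ^ 2) * (1 + y ^ 2) ^ k :=
        mul_le_mul_of_nonneg_left h10 (by positivity)
    _ = (1 + y ^ 2) ^ (k + 1) := by ring
    _ ≤ (1 + y ^ 2) ^ 130 := pow_le_pow_right₀ h9 (by omega)

lemma ho_le : ∀ b : ℕ, b < 8 → ho (b + 1) - ho b ≤ 8 := by
  intro b hb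
  interval_cases b <;> decide

theorem G4b_of (h1 : StG1) (h3 : StG3) : StG4b := by
  obtain ⟨C, K, hC, h⟩ := h1
  refine ⟨C, K, hC, ?_⟩
  intro n hn b m j hp y
  set T := NG n y * Real.exp (-(2 * Real.pi * |y|)) with hT
  have hT0 : 0 ≤ T := mul_nonneg (NG_nonneg n y) (Real.exp_pos _).le
  have hWW : WW n y = T * (1 + y ^ 2) ^ 130 := rfl
  have hF0 : 0 ≤ FB n b y := FB_nonneg n b y
  have hj : j ≤ 129 := by
    rcases hp with ⟨hb, _, hj⟩ | ⟨_, _, hj⟩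
    · have := ho_le b hb
      omega
    · omega
  have hfin : T * (1 + y ^ 2) * (FB n b y * (‖aeval (zn n y) (TB n b)‖ ^ 2) ^ m * (y ^ 2) ^ j) ≤
      WW n y * FB n b y * (‖aeval (zn n y) (TB n b)‖ ^ 2) ^ m := by
    have hG0 : 0 ≤ (‖aeval (zn n y) (TB n b)‖ ^ 2) ^ m := by positivity
    calc T * (1 + y ^ 2) * (FB n b y * (‖aeval (zn n y) (TB n b)‖ ^ 2) ^ m * (y ^ 2) ^ j)
        = T * ((1 + y ^ 2) * (y ^ 2) ^ j) * FB n b y * (‖aeval (zn n y) (TB n b)‖ ^ 2) ^ m := by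
          ring
      _ ≤ T * (1 + y ^ 2) ^ 130 * FB n b y * (‖aeval (zn n y) (TB n b)‖ ^ 2) ^ m := by
          apply mul_le_mul_of_nonneg_right _ hG0
          apply mul_le_mul_of_nonneg_right _ hF0
          exact mul_le_mul_of_nonneg_left (ypow hj) hT0
      _ = WW n y * FB n b y * (‖aeval (zn n y) (TB n b)‖ ^ 2) ^ m := by rw [hWW]
  rw [PA_norm]
  refine hfin.trans ?_
  rcases hp with ⟨hb, hm, _⟩ | ⟨rfl, rfl, _⟩
  · have c1 := corner h3 hC h hn (b := b) (by omega) y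
    have c2 := corner h3 hC h hn (b := b + 1) (by omega) y
    rw [FB_succ hb, ← mul_assoc] at c2
    exact interp (mul_nonneg (WW_nonneg n y) (FB_nonneg n b y))
      (sq_nonneg ‖aeval (zn n y) (TB n b)‖) (by omega) hm.le c1 c2
  · have c1 := corner h3 hC h hn (b := 8) le_rfl y
    rw [pow_zero, mul_one]
    have e : al C K n 8 0 = la C K n 8 := by
      unfold al
      rw [Nat.cast_zero, zero_div, sub_zero, one_mul, zero_mul, add_zero]
    rw [e]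
    exact c1

end

end Pool.Agent.W395.Z3
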